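import Pool.Agent.Y976.SG.Stm
import Pool.Agent.H809R2.GI.Gauss2

/-! Grothendieck's identity for correlation matrices (job SG-GRO, project of helper976; proof by
helper43). -/

set_option autoImplicit false

namespace Pool.Agent.Y43.SG.GRO

open MeasureTheory ProbabilityTheory Matrix
open scoped RealInnerProductSpace
open Pool.Agent.H809R2.GI

lemma trace_eq {k : ℕ} (B : Matrix (Fin k) (Fin k) ℝ) (x : Fin k → ℝ) :
    (Bᴴ * Matrix.vecMulVec x (star x)).trace = ∑ i, ∑ j, B i j * (x i * x j) := by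
  rw [Finset.sum_comm]
  simp only [Matrix.trace, Matrix.diag_apply, Matrix.mul_apply, Matrix.vecMulVec_apply,
    Matrix.conjTranspose_apply, star_trivial]

lemma le_rankOneMax {k : ℕ} (B : Matrix (Fin k) (Fin k) ℝ) (x : Fin k → ℝ)
    (hx : ∀ i, ‖x i‖ = 1) : ‖∑ i, ∑ j, B i j * (x i * x j)‖ ≤ rankOneMax B := by
  unfold rankOneMax
  apply le_csSup
  · refine ⟨∑ i, ∑ j, ‖B i j‖, ?_⟩
    rintro r ⟨y, hy, rfl⟩
    rw [trace_eq]
    refine (norm_sum_le _ _).trans (Finset.sum_le_sum fun i _ => ?_)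
    refine (norm_sum_le _ _).trans (Finset.sum_le_sum fun j _ => ?_)
    rw [norm_mul, norm_mul, hy, hy, mul_one, mul_one]
  · exact ⟨x, hx, by rw [trace_eq]⟩

theorem main : Pool.Agent.Y976.SG.S_GRO := by
  intro k S B hS
  obtain ⟨hP, hd⟩ := hS
  obtain ⟨C, hC⟩ : ∃ C : Matrix (Fin k) (Fin k) ℝ, S = Cᵀ * C := by
    open scoped Matrix.Norms.L2Operator MatrixOrder in
    obtain ⟨C, hC⟩ := CStarAlgebra.nonneg_iff_eq_star_mul_self.mp hP.nonneg
    refine ⟨C, ?_⟩
    rw [hC, star_eq_conjTranspose, conjTranspose_eq_transpose_of_trivial]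
  let w : Fin k → EuclideanSpace ℝ (Fin k) := fun a => WithLp.toLp 2 (fun l => C l a)
  have hw : ∀ a b, (⟪w a, w b⟫ : ℝ) = S a b := by
    intro a b
    rw [hC]
    simp [w, PiLp.inner_apply, Matrix.mul_apply, mul_comm]
  have hnorm : ∀ a, ‖w a‖ = 1 := by
    intro a
    have h1 : ‖w a‖ ^ 2 = 1 := by
      rw [← real_inner_self_eq_norm_sq, hw, hd]
    have h2 := norm_nonneg (w a)
    nlinarith
  have hmeas : ∀ i, AEStronglyMeasurable (fun g : EuclideanSpace ℝ (Fin k) => sg ⟪w i, g⟫)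
      (stdGaussian (EuclideanSpace ℝ (Fin k))) := fun i =>
    (measurable_sg.comp (by fun_prop)).aestronglyMeasurable
  have hint : ∀ i j, Integrable (fun g : EuclideanSpace ℝ (Fin k) => sg ⟪w i, g⟫ * sg ⟪w j, g⟫)
      (stdGaussian (EuclideanSpace ℝ (Fin k))) := by
    intro i j
    refine Integrable.of_bound ((hmeas i).mul (hmeas j)) 1 (Filter.Eventually.of_forall fun g => ?_)
    rw [norm_mul, Real.norm_eq_abs, Real.norm_eq_abs, abs_sg, abs_sg, mul_one]
  have h1 : ∑ i, ∑ j, B i j * ∫ g, sg ⟪w i, g⟫ * sg ⟪w j, g⟫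
      ∂(stdGaussian (EuclideanSpace ℝ (Fin k))) =
      ∫ g, ∑ i, ∑ j, B i j * (sg ⟪w i, g⟫ * sg ⟪w j, g⟫)
        ∂(stdGaussian (EuclideanSpace ℝ (Fin k))) := by
    rw [integral_finsetSum]
    · apply Finset.sum_congr rfl
      intro i _
      rw [integral_finsetSum]
      · apply Finset.sum_congr rfl
        intro j _
        rw [← integral_const_mul]
      · intro j _
        exact (hint i j).const_mul (B i j)
    · intro i _
      apply integrable_finsetSum
      intro j _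
      exact (hint i j).const_mul (B i j)
  have h2 : ‖∫ g, ∑ i, ∑ j, B i j * (sg ⟪w i, g⟫ * sg ⟪w j, g⟫)
        ∂(stdGaussian (EuclideanSpace ℝ (Fin k)))‖ ≤ rankOneMax B := by
    refine (norm_integral_le_of_norm_le_const (C := rankOneMax B)
      (Filter.Eventually.of_forall fun g => ?_)).trans ?_
    · exact le_rankOneMax B (fun i => sg ⟪w i, g⟫) (fun i => by rw [Real.norm_eq_abs, abs_sg])
    · simp
  have h3 : ∑ i, ∑ j, B i j * Real.arcsin (S i j) = Real.pi / 2 *
      ∑ i, ∑ j, B i j * ∫ g, sg ⟪w i, g⟫ * sg ⟪w j, g⟫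
        ∂(stdGaussian (EuclideanSpace ℝ (Fin k))) := by
    rw [Finset.mul_sum]
    apply Finset.sum_congr rfl
    intro i _
    rw [Finset.mul_sum]
    apply Finset.sum_congr rfl
    intro j _
    rw [grothendieck_identity _ _ (hnorm i) (hnorm j), hw]
    have := Real.pi_pos
    field_simp
  rw [h3, h1, abs_mul, abs_of_pos (by positivity)]
  exact mul_le_mul_of_nonneg_left h2 (by positivity)

end Pool.Agent.Y43.SG.GRO
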